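import Pool.Agent.V11129.TutteComp

/-!
# Loopless multigraphs with the same U-polynomial and different strong U-polynomials

Two multigraphs with 6 vertices and 9 edges.
-/

set_option autoImplicit false

namespace Pool.Agent.Results.MP_062ce2_co.StrongUDiffers

open Finset Pool.Agent.V11129

universe u v

/-- The U-polynomial: `∑_A x_{n_1} ... x_{n_k} (y - 1) ^ (|A| - r(A))`, with `x_i = X (some i)` and
`y = X none`; `n_1, ..., n_k` are the numbers of vertices of the components of `(V, A)`. -/
noncomputable def uPoly {V : Type u} {E : Type v} [Fintype V] [Fintype E]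
    (ends : E → Sym2 V) : MvPolynomial (Option ℕ) ℤ :=
  ∑ A : Finset E, (∏ᶠ C : (spanningSub ends A).ConnectedComponent,
    MvPolynomial.X (some C.supp.ncard)) * (MvPolynomial.X none - 1) ^ (A.card - rk ends A)

/-- The edges in `A` with both ends in the vertex set `C`. -/
def edgesIn {V : Type u} {E : Type v} (ends : E → Sym2 V) (A : Finset E) (C : Set V) : Set E :=
  {a | a ∈ A ∧ ∀ v ∈ ends a, v ∈ C}

/-- The strong U-polynomial: `∑_A ∏_C z_{|V(C)|, |E(C)| - |V(C)| + 1}`, the product taken over the
components `C` of `(V, A)`, with `z_{i,j} = X (i, j)`. -/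
noncomputable def strongUPoly {V : Type u} {E : Type v} [Fintype V] [Fintype E]
    (ends : E → Sym2 V) : MvPolynomial (ℕ × ℕ) ℤ :=
  ∑ A : Finset E, ∏ᶠ C : (spanningSub ends A).ConnectedComponent,
    MvPolynomial.X (C.supp.ncard, (edgesIn ends A C.supp).ncard + 1 - C.supp.ncard)

/-- Isomorphism of multigraphs. -/
def Isomorphic {V W : Type u} {E F : Type v} (G : E → Sym2 V) (H : F → Sym2 W) : Prop :=
  ∃ (σ : V ≃ W) (τ : E ≃ F), ∀ e, H (τ e) = (G e).map σ

/-- A multigraph is loopless if no edge joins a vertex to itself. -/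
def Loopless {V : Type u} {E : Type v} (G : E → Sym2 V) : Prop := ∀ e, ¬ (G e).IsDiag

/-- The first multigraph. -/
def P : Fin 9 → Fin 6 × Fin 6 :=
  ![(0, 1), (0, 2), (0, 2), (0, 3), (0, 5), (1, 2), (1, 3), (1, 4), (3, 4)]

/-- The second multigraph. -/
def Q : Fin 9 → Fin 6 × Fin 6 :=
  ![(0, 1), (0, 2), (0, 3), (0, 3), (0, 4), (1, 2), (1, 4), (1, 5), (2, 3)]

theorem looplessP : Loopless (endsOf P) := by
  unfold Loopless endsOf
  decide +kernel

theorem looplessQ : Loopless (endsOf Q) := by
  unfold Loopless endsOf
  decide +kernel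

theorem not_iso : ¬ Isomorphic (endsOf P) (endsOf Q) := by
  rintro ⟨σ, τ, h⟩
  have hdeg : ∀ v, (univ.filter fun e => v ∈ endsOf P e).card =
      (univ.filter fun e => σ v ∈ endsOf Q e).card := by
    intro v
    apply Finset.card_bij (fun e _ => τ e)
    · intro e he
      rw [Finset.mem_filter] at he ⊢
      refine ⟨Finset.mem_univ _, ?_⟩
      rw [h, Sym2.mem_map]
      exact ⟨v, he.2, rfl⟩
    · intro a _ b _ hab
      exact τ.injective hab
    · intro b hb
      refine ⟨τ.symm b, ?_, by simp⟩
      rw [Finset.mem_filter] at hb ⊢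
      refine ⟨Finset.mem_univ _, ?_⟩
      have h1 := hb.2
      have h2 := h (τ.symm b)
      rw [Equiv.apply_symm_apply] at h2
      rw [h2, Sym2.mem_map] at h1
      obtain ⟨w, hw, hwv⟩ := h1
      rwa [σ.injective hwv] at hw
  have h5 : σ 5 = 5 := by
    have h1 := hdeg 5
    have h2 : (univ.filter fun e => (5 : Fin 6) ∈ endsOf P e).card = 1 := by
      unfold endsOf; decide +kernel
    have h3 : ∀ w : Fin 6, 1 = (univ.filter fun e => w ∈ endsOf Q e).card → w = 5 := by
      unfold endsOf; decide +kernel
    exact h3 _ (h2.symm.trans h1)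
  have h0 : σ 0 = 0 := by
    have h1 := hdeg 0
    have h2 : (univ.filter fun e => (0 : Fin 6) ∈ endsOf P e).card = 5 := by
      unfold endsOf; decide +kernel
    have h3 : ∀ w : Fin 6, 5 = (univ.filter fun e => w ∈ endsOf Q e).card → w = 0 := by
      unfold endsOf; decide +kernel
    exact h3 _ (h2.symm.trans h1)
  have h6 := h 4
  have h7 : endsOf P 4 = s(0, 5) := by unfold endsOf; decide +kernel
  rw [h7, Sym2.map_mk, h0, h5] at h6
  have h8 : ∀ e : Fin 9, endsOf Q e ≠ s(0, 5) := by unfold endsOf; decide +kernel
  exact h8 _ h6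

/-- The sizes of the classes of the labelling `rep l` (with a zero for every non-label). -/
def sizes (l : List (Fin 6 × Fin 6)) : List ℕ :=
  (List.finRange 6).map fun r => ((List.finRange 6).filter fun v => rep l v = r).length

theorem ncard_eq (l : List (Fin 6 × Fin 6)) (r : Fin 6) :
    {v | rep l v = r}.ncard = ((List.finRange 6).filter fun v => rep l v = r).length := by
  classical
  rw [Set.ncard_eq_toFinset_card']
  rw [← List.toFinset_card_of_nodup ((List.nodup_finRange 6).filter _)]
  congr 1
  ext v
  simp

theorem length_pos_iff (l : List (Fin 6 × Fin 6)) (r : Fin 6) :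
    r ∈ (univ : Finset (Fin 6)).image (rep l) ↔
      ((List.finRange 6).filter fun v => rep l v = r).length ≠ 0 := by
  rw [Finset.mem_image]
  constructor
  · rintro ⟨v, -, hv⟩ h
    rw [List.length_eq_zero_iff] at h
    have : v ∈ (List.finRange 6).filter fun v => rep l v = r := by simp [hv]
    rw [h] at this
    exact absurd this List.not_mem_nil
  · intro h
    have h' : ((List.finRange 6).filter fun v => rep l v = r) ≠ [] := by
      intro h'
      exact h (by rw [h']; rfl)
    obtain ⟨v, hv⟩ := List.exists_mem_of_ne_nil _ h'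
    refine ⟨v, Finset.mem_univ _, ?_⟩
    simpa using hv

/-- The product over components, from the list of sizes. -/
theorem prod_comp {M : Type*} [CommMonoid M] (l : List (Fin 6 × Fin 6)) (φ : ℕ → Set (Fin 6) → M) :
    ∏ r ∈ (univ : Finset (Fin 6)).image (rep l), φ {v | rep l v = r}.ncard {v | rep l v = r} =
      ((List.finRange 6).map fun r =>
        if ((List.finRange 6).filter fun v => rep l v = r).length = 0 then 1 else
          φ ((List.finRange 6).filter fun v => rep l v = r).length {v | rep l v = r}).prod := by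
  rw [← List.prod_toFinset _ (List.nodup_finRange 6)]
  have : (List.finRange 6).toFinset = univ := by ext; simp
  rw [this]
  rw [← Finset.prod_subset (Finset.subset_univ ((univ : Finset (Fin 6)).image (rep l)))]
  · apply Finset.prod_congr rfl
    intro r hr
    rw [if_neg ((length_pos_iff l r).1 hr), ncard_eq]
  · intro r _ hr
    rw [length_pos_iff, not_not] at hr
    rw [if_pos hr]

/-! ### Computation of the U-polynomial -/

/-- Number of entries equal to `r`. -/
def countEq (r : ℕ) : List ℕ → ℕ
  | [] => 0
  | a :: l => bif Nat.beq a r then Nat.succ (countEq r l) else countEq r l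

/-- Sizes of the classes of a list of labels. -/
def sizesLab (lab : List ℕ) : List ℕ := [0, 1, 2, 3, 4, 5].map fun r => countEq r lab

/-- Insertion. -/
def ins (a : ℕ) : List ℕ → List ℕ
  | [] => [a]
  | b :: l => bif Nat.ble a b then a :: b :: l else b :: ins a l

/-- Insertion sort. -/
def isort : List ℕ → List ℕ
  | [] => []
  | a :: l => ins a (isort l)

theorem ins_perm (a : ℕ) (l : List ℕ) : (ins a l).Perm (a :: l) := by
  induction l with
  | nil => exact List.Perm.refl _
  | cons b l ih =>
    simp only [ins]
    cases Nat.ble a b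
    · exact (List.Perm.cons b ih).trans (List.Perm.swap a b l)
    · exact List.Perm.refl _

theorem isort_perm (l : List ℕ) : (isort l).Perm l := by
  induction l with
  | nil => exact List.Perm.refl _
  | cons a l ih => exact (ins_perm a _).trans (ih.cons a)

/-- All keys (sorted sizes of the components, nullity). -/
def allKeys : List (ℕ × ℕ) → List ℕ → ℕ → List (List ℕ × ℕ)
  | [], lab, s => [(isort (sizesLab lab), Nat.sub s (Nat.sub 6 (distinct lab)))]
  | p :: L, lab, s => allKeys L lab s ++ allKeys L (mergeLab lab p.1 p.2) (Nat.succ s)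

/-- The term of the U-polynomial with a given key. -/
noncomputable def term (k : List ℕ × ℕ) : MvPolynomial (Option ℕ) ℤ :=
  (k.1.map fun c => if c = 0 then 1 else MvPolynomial.X (some c)).prod *
    (MvPolynomial.X none - 1) ^ k.2

theorem countEq_eq (r : ℕ) (l : List ℕ) : countEq r l = (l.filter fun a => a = r).length := by
  induction l with
  | nil => rfl
  | cons a l ih =>
    simp only [countEq, ih, List.filter_cons]
    by_cases h : a = r
    · simp [h]
    · have : Nat.beq a r = false := by
        rw [← Bool.not_eq_true, Nat.beq_eq]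
        exact h
      simp [this, h]

theorem countEq_labs (l : List (Fin 6 × Fin 6)) (r : Fin 6) :
    countEq (r : ℕ) (labs l) = ((List.finRange 6).filter fun v => rep l v = r).length := by
  rw [countEq_eq, labs, List.filter_map, List.length_map]
  congr 1
  apply List.filter_congr
  intro v _
  simp [Fin.ext_iff]

theorem map_sizesLab {M : Type*} (l : List (Fin 6 × Fin 6)) (f : ℕ → M) :
    (sizesLab (labs l)).map f =
      (List.finRange 6).map fun r => f ((List.finRange 6).filter fun v => rep l v = r).length := by
  simp only [← countEq_labs]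
  rfl

theorem term_eq (R : Fin 9 → Fin 6 × Fin 6) (acc : List (Fin 9)) (hacc : acc.Nodup) :
    (∏ᶠ C : (spanningSub (endsOf R) acc.toFinset).ConnectedComponent,
      (MvPolynomial.X (some C.supp.ncard) : MvPolynomial (Option ℕ) ℤ)) *
      (MvPolynomial.X none - 1) ^ (acc.toFinset.card - rk (endsOf R) acc.toFinset) =
    term (isort (sizesLab (labs (acc.map R))),
      Nat.sub acc.length (Nat.sub 6 (distinct (labs (acc.map R))))) := by
  rw [rk_endsOf, List.toFinset_card_of_nodup hacc, spanningSub_endsOf, term]
  congr 1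
  rw [finprod_components (acc.map R) (fun C => MvPolynomial.X (some C.ncard)),
    prod_comp (acc.map R) (fun c _ => MvPolynomial.X (some c)),
    ((isort_perm (sizesLab (labs (acc.map R)))).map _).prod_eq, map_sizesLab]

theorem run_keys (R : Fin 9 → Fin 6 × Fin 6) (L acc : List (Fin 9)) :
    run (fun acc => term (isort (sizesLab (labs (acc.map R))),
      Nat.sub acc.length (Nat.sub 6 (distinct (labs (acc.map R)))))) L acc =
      ((allKeys (L.map fun e => (((R e).1 : ℕ), ((R e).2 : ℕ))) (labs (acc.map R))
        acc.length).map term).sum := by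
  induction L generalizing acc with
  | nil => simp [run, allKeys]
  | cons a L ih =>
    rw [run, ih, ih]
    simp only [List.map_cons, allKeys, List.map_append, List.sum_append, List.length_cons]
    rw [← labs_cons]

theorem uPoly_eq (R : Fin 9 → Fin 6 × Fin 6) :
    uPoly (endsOf R) =
      ((allKeys ((List.finRange 9).map fun e => (((R e).1 : ℕ), ((R e).2 : ℕ)))
        [0, 1, 2, 3, 4, 5] 0).map term).sum := by
  unfold uPoly
  rw [sum_univ_run _ _ (term_eq R) (List.finRange 9) (List.nodup_finRange 9) (by ext; simp),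
    run_keys, List.map_nil, labs_nil]
  rfl

/-- Keys of the first graph. -/
def keysP : List (List ℕ × ℕ) :=
  allKeys [(0, 1), (0, 2), (0, 2), (0, 3), (0, 5), (1, 2), (1, 3), (1, 4), (3, 4)]
    [0, 1, 2, 3, 4, 5] 0

/-- Keys of the second graph. -/
def keysQ : List (List ℕ × ℕ) :=
  allKeys [(0, 1), (0, 2), (0, 3), (0, 3), (0, 4), (1, 2), (1, 4), (1, 5), (2, 3)]
    [0, 1, 2, 3, 4, 5] 0

/-- Equality of lists of numbers. -/
def leq : List ℕ → List ℕ → Bool
  | [], [] => true
  | a :: l, b :: m => bif Nat.beq a b then leq l m else false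
  | _, _ => false

theorem leq_iff (l m : List ℕ) : leq l m = true ↔ l = m := by
  induction l generalizing m with
  | nil => cases m <;> simp [leq]
  | cons a l ih =>
    cases m with
    | nil => simp [leq]
    | cons b m =>
      simp only [leq]
      by_cases h : a = b
      · simp [h, ih]
      · have : Nat.beq a b = false := by
          rw [← Bool.not_eq_true, Nat.beq_eq]
          exact h
        simp [this, h]

/-- Equality of keys. -/
def keq (x y : List ℕ × ℕ) : Bool := bif Nat.beq x.2 y.2 then leq x.1 y.1 else false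

theorem keq_iff (x y : List ℕ × ℕ) : keq x y = true ↔ x = y := by
  unfold keq
  by_cases h : x.2 = y.2
  · simp [h, leq_iff, Prod.ext_iff]
  · have : Nat.beq x.2 y.2 = false := by
      rw [← Bool.not_eq_true, Nat.beq_eq]
      exact h
    simp [this, Prod.ext_iff, h]

/-- Number of occurrences of a key. -/
def cnt (x : List ℕ × ℕ) : List (List ℕ × ℕ) → ℕ
  | [] => 0
  | y :: l => bif keq x y then Nat.succ (cnt x l) else cnt x l

/-- Check that every entry of the first list occurs equally often in two lists. -/
def checkAll (a b : List (List ℕ × ℕ)) : List (List ℕ × ℕ) → Bool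
  | [] => true
  | x :: l => bif Nat.beq (cnt x a) (cnt x b) then checkAll a b l else false

/-- Occurrence. -/
def occurs (x : List ℕ × ℕ) : List (List ℕ × ℕ) → Bool
  | [] => false
  | y :: l => bif keq x y then true else occurs x l

/-- Remove duplicates. -/
def nub : List (List ℕ × ℕ) → List (List ℕ × ℕ)
  | [] => []
  | x :: l => bif occurs x (nub l) then nub l else x :: nub l

theorem cnt_eq (x : List ℕ × ℕ) (l : List (List ℕ × ℕ)) : cnt x l = l.count x := by
  induction l with
  | nil => rfl
  | cons y l ih =>
    rw [List.count_cons]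
    simp only [cnt, ih]
    by_cases h : x = y
    · rw [(keq_iff x y).2 h]
      simp [h]
    · have : keq x y = false := by
        rw [← Bool.not_eq_true, keq_iff]
        exact h
      rw [this]
      have h' : (y == x) = false := by
        rw [beq_eq_false_iff_ne]
        exact fun hh => h hh.symm
      simp [h']

theorem occurs_iff (x : List ℕ × ℕ) (l : List (List ℕ × ℕ)) : occurs x l = true ↔ x ∈ l := by
  induction l with
  | nil => simp [occurs]
  | cons y l ih =>
    simp only [occurs]
    by_cases h : x = y
    · rw [(keq_iff x y).2 h]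
      simp [h]
    · have : keq x y = false := by
        rw [← Bool.not_eq_true, keq_iff]
        exact h
      rw [this]
      simp [ih, h]

theorem mem_nub (x : List ℕ × ℕ) (l : List (List ℕ × ℕ)) : x ∈ nub l ↔ x ∈ l := by
  induction l with
  | nil => simp [nub]
  | cons y l ih =>
    simp only [nub]
    cases h : occurs y (nub l)
    · simp [ih]
    · rw [occurs_iff] at h
      rw [cond_true, ih, List.mem_cons]
      constructor
      · exact Or.inr
      · rintro (rfl | h')
        · exact (ih.1 h)
        · exact h'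

theorem checkAll_iff (a b l : List (List ℕ × ℕ)) :
    checkAll a b l = true ↔ ∀ x ∈ l, a.count x = b.count x := by
  induction l with
  | nil => simp [checkAll]
  | cons y l ih =>
    simp only [checkAll]
    by_cases h : cnt y a = cnt y b
    · have h' := h
      rw [cnt_eq, cnt_eq] at h'
      simp [h, ih, h']
    · have : Nat.beq (cnt y a) (cnt y b) = false := by
        rw [← Bool.not_eq_true, Nat.beq_eq]
        exact h
      rw [this]
      rw [cnt_eq, cnt_eq] at h
      simp [h]

theorem perm_of_check (a b : List (List ℕ × ℕ)) (h1 : checkAll a b (nub a) = true)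
    (h2 : checkAll a b (nub b) = true) : a.Perm b := by
  rw [checkAll_iff] at h1 h2
  rw [List.perm_iff_count]
  intro x
  by_cases ha : x ∈ a
  · exact h1 x ((mem_nub x a).2 ha)
  · by_cases hb : x ∈ b
    · exact h2 x ((mem_nub x b).2 hb)
    · rw [List.count_eq_zero_of_not_mem ha, List.count_eq_zero_of_not_mem hb]

theorem keys_perm : keysP.Perm keysQ :=
  perm_of_check _ _ (by decide +kernel) (by decide +kernel)

theorem uPoly_PQ : uPoly (endsOf P) = uPoly (endsOf Q) := by
  rw [uPoly_eq, uPoly_eq]
  have e1 : ((List.finRange 9).map fun e => (((P e).1 : ℕ), ((P e).2 : ℕ))) =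
      [(0, 1), (0, 2), (0, 2), (0, 3), (0, 5), (1, 2), (1, 3), (1, 4), (3, 4)] := by
    decide +kernel
  have e2 : ((List.finRange 9).map fun e => (((Q e).1 : ℕ), ((Q e).2 : ℕ))) =
      [(0, 1), (0, 2), (0, 3), (0, 3), (0, 4), (1, 2), (1, 4), (1, 5), (2, 3)] := by
    decide +kernel
  rw [e1, e2]
  exact (keys_perm.map term).sum_eq

/-! ### The strong U-polynomials differ -/

/-- The evaluation point: `z_{3,0} = z_{3,2} = 1`, all other variables are `0`. -/
def wt (i j : ℕ) : ℕ :=
  bif Nat.beq i 3 then (bif Nat.beq j 0 then 1 else bif Nat.beq j 2 then 1 else 0) else 0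

/-- Number of listed edges with both ends labelled `r`. -/
def cntE (r : ℕ) (lab : List ℕ) : List (ℕ × ℕ) → ℕ
  | [] => 0
  | p :: l => bif (bif Nat.beq (lab.getD p.1 0) r then Nat.beq (lab.getD p.2 0) r else false)
      then Nat.succ (cntE r lab l) else cntE r lab l

/-- The value of one component. -/
def valC (r : ℕ) (lab : List ℕ) (acc : List (ℕ × ℕ)) : ℕ :=
  bif Nat.beq (countEq r lab) 0 then 1 else
    wt (countEq r lab) (Nat.sub (Nat.succ (cntE r lab acc)) (countEq r lab))

/-- The value of one subset. -/
def valS (lab : List ℕ) (acc : List (ℕ × ℕ)) : ℕ :=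
  valC 0 lab acc * (valC 1 lab acc * (valC 2 lab acc * (valC 3 lab acc *
    (valC 4 lab acc * valC 5 lab acc))))

/-- The value of the strong U-polynomial. -/
def runS : List (ℕ × ℕ) → List ℕ → List (ℕ × ℕ) → ℕ
  | [], lab, acc => valS lab acc
  | p :: L, lab, acc => runS L lab acc + runS L (mergeLab lab p.1 p.2) (p :: acc)

/-- The ends of an edge as a pair of natural numbers. -/
def nat2 (p : Fin 6 × Fin 6) : ℕ × ℕ := ((p.1 : ℕ), (p.2 : ℕ))

theorem cntE_eq (r : Fin 6) (l : List (Fin 6 × Fin 6)) (acc : List (Fin 6 × Fin 6)) :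
    cntE r (labs l) (acc.map nat2) =
      (acc.filter fun p => decide (rep l p.1 = r) && decide (rep l p.2 = r)).length := by
  induction acc with
  | nil => rfl
  | cons p acc ih =>
    simp only [List.map_cons, cntE, ih, nat2, labs_getD, List.filter_cons]
    by_cases h1 : rep l p.1 = r
    · by_cases h2 : rep l p.2 = r
      · simp [h1, h2]
      · have h2' : Nat.beq ((rep l p.2 : Fin 6) : ℕ) (r : ℕ) = false := by
          rw [← Bool.not_eq_true, Nat.beq_eq]
          exact fun hh => h2 (Fin.ext hh)
        simp [h1, h2, h2']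
    · have h1' : Nat.beq ((rep l p.1 : Fin 6) : ℕ) (r : ℕ) = false := by
        rw [← Bool.not_eq_true, Nat.beq_eq]
        exact fun hh => h1 (Fin.ext hh)
      simp [h1, h1']

theorem edgesIn_ncard (R : Fin 9 → Fin 6 × Fin 6) (acc : List (Fin 9)) (hacc : acc.Nodup)
    (r : Fin 6) :
    (edgesIn (endsOf R) acc.toFinset {v | rep (acc.map R) v = r}).ncard =
      cntE r (labs (acc.map R)) ((acc.map R).map nat2) := by
  classical
  rw [cntE_eq, List.filter_map, List.length_map]
  have : edgesIn (endsOf R) acc.toFinset {v | rep (acc.map R) v = r} =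
      ((acc.filter fun a => decide (rep (acc.map R) (R a).1 = r) &&
        decide (rep (acc.map R) (R a).2 = r)).toFinset : Set (Fin 9)) := by
    ext a
    simp only [edgesIn, endsOf, Set.mem_ofPred_eq, List.mem_toFinset, Sym2.mem_iff, Finset.mem_coe,
      List.mem_filter, Bool.and_eq_true, decide_eq_true_eq]
    constructor
    · rintro ⟨h1, h2⟩
      exact ⟨h1, h2 _ (Or.inl rfl), h2 _ (Or.inr rfl)⟩
    · rintro ⟨h1, h2, h3⟩
      refine ⟨h1, ?_⟩
      rintro v (rfl | rfl)
      · exact h2
      · exact h3
  rw [this, Set.ncard_coe_finset, List.toFinset_card_of_nodup (hacc.filter _)]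
  rfl

theorem strong_term (R : Fin 9 → Fin 6 × Fin 6) (acc : List (Fin 9)) (hacc : acc.Nodup) :
    MvPolynomial.eval (fun p : ℕ × ℕ => ((wt p.1 p.2 : ℕ) : ℤ))
      (∏ᶠ C : (spanningSub (endsOf R) acc.toFinset).ConnectedComponent,
        (MvPolynomial.X (C.supp.ncard, (edgesIn (endsOf R) acc.toFinset C.supp).ncard + 1 -
          C.supp.ncard) : MvPolynomial (ℕ × ℕ) ℤ)) =
      ((valS (labs (acc.map R)) ((acc.map R).map nat2) : ℕ) : ℤ) := by
  rw [spanningSub_endsOf, finprod_components (acc.map R) (fun C => MvPolynomial.X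
    (C.ncard, (edgesIn (endsOf R) acc.toFinset C).ncard + 1 - C.ncard))]
  have hp := prod_comp (acc.map R) (fun c C => (MvPolynomial.X
    (c, (edgesIn (endsOf R) acc.toFinset C).ncard + 1 - c) : MvPolynomial (ℕ × ℕ) ℤ))
  rw [hp, map_list_prod, List.map_map]
  have hv : ∀ r : Fin 6, (MvPolynomial.eval (fun p : ℕ × ℕ => ((wt p.1 p.2 : ℕ) : ℤ)))
      (if ((List.finRange 6).filter fun v => rep (acc.map R) v = r).length = 0 then 1 else
        (MvPolynomial.X (((List.finRange 6).filter fun v => rep (acc.map R) v = r).length,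
          (edgesIn (endsOf R) acc.toFinset {v | rep (acc.map R) v = r}).ncard + 1 -
            ((List.finRange 6).filter fun v => rep (acc.map R) v = r).length) :
              MvPolynomial (ℕ × ℕ) ℤ)) =
      ((valC r (labs (acc.map R)) ((acc.map R).map nat2) : ℕ) : ℤ) := by
    intro r
    rw [edgesIn_ncard R acc hacc, ← countEq_labs, valC]
    by_cases h : countEq (r : ℕ) (labs (acc.map R)) = 0
    · simp [h]
    · have h' : Nat.beq (countEq (r : ℕ) (labs (acc.map R))) 0 = false := by
        rw [← Bool.not_eq_true, Nat.beq_eq]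
        exact h
      rw [if_neg h, h', cond_false, MvPolynomial.eval_X]
      rfl
  have : (List.finRange 6) = [0, 1, 2, 3, 4, 5] := by decide
  have hm := List.map_congr_left (l := List.finRange 6) (g := fun r : Fin 6 =>
    ((valC r (labs (acc.map R)) ((acc.map R).map nat2) : ℕ) : ℤ)) (fun r _ => hv r)
  refine (congrArg List.prod hm).trans ?_
  rw [this, valS]
  simp only [List.map_cons, List.map_nil, List.prod_cons, List.prod_nil, mul_one, Nat.cast_mul]
  rfl

theorem run_S (R : Fin 9 → Fin 6 × Fin 6) (L acc : List (Fin 9)) :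
    run (fun acc => ((valS (labs (acc.map R)) ((acc.map R).map nat2) : ℕ) : ℤ)) L acc =
      ((runS ((L.map R).map nat2) (labs (acc.map R)) ((acc.map R).map nat2) : ℕ) : ℤ) := by
  induction L generalizing acc with
  | nil => rfl
  | cons a L ih =>
    rw [run, ih, ih]
    simp only [List.map_cons, runS, Nat.cast_add]
    rw [← labs_cons]
    rfl

theorem eval_strong (R : Fin 9 → Fin 6 × Fin 6) :
    MvPolynomial.eval (fun p : ℕ × ℕ => ((wt p.1 p.2 : ℕ) : ℤ)) (strongUPoly (endsOf R)) =
      ((runS (((List.finRange 9).map R).map nat2) [0, 1, 2, 3, 4, 5] [] : ℕ) : ℤ) := by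
  unfold strongUPoly
  rw [map_sum, sum_univ_run _ _ (strong_term R) (List.finRange 9) (List.nodup_finRange 9)
    (by ext; simp), run_S, List.map_nil, labs_nil]
  rfl

theorem strong_ne : strongUPoly (endsOf P) ≠ strongUPoly (endsOf Q) := by
  intro h
  have h1 := congrArg (MvPolynomial.eval (fun p : ℕ × ℕ => ((wt p.1 p.2 : ℕ) : ℤ))) h
  rw [eval_strong, eval_strong, Nat.cast_inj] at h1
  have e1 : (((List.finRange 9).map P).map nat2) =
      [(0, 1), (0, 2), (0, 2), (0, 3), (0, 5), (1, 2), (1, 3), (1, 4), (3, 4)] := by
    decide +kernel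
  have e2 : (((List.finRange 9).map Q).map nat2) =
      [(0, 1), (0, 2), (0, 3), (0, 3), (0, 4), (1, 2), (1, 4), (1, 5), (2, 3)] := by
    decide +kernel
  rw [e1, e2] at h1
  revert h1
  decide +kernel

/-- **MP_062ce2_co, answered positively.** There are two non-isomorphic loopless graphs with the
same U-polynomial and different strong U-polynomials. -/
theorem result : ∃ G H : Fin 9 → Sym2 (Fin 6), Loopless G ∧ Loopless H ∧ ¬ Isomorphic G H ∧
    uPoly G = uPoly H ∧ strongUPoly G ≠ strongUPoly H :=
  ⟨endsOf P, endsOf Q, looplessP, looplessQ, not_iso, uPoly_PQ, strong_ne⟩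

end Pool.Agent.Results.MP_062ce2_co.StrongUDiffers
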